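import Pool.Agent.Run7.h773.CK.Odd

/-!
# Critical independent sets
-/

set_option autoImplicit false

namespace Run7.h773.CK

open SimpleGraph Finset

variable {V : Type*}

/-- `S` is a maximum independent set of `G`. -/
def IsMaxIndep (G : SimpleGraph V) (S : Finset V) : Prop :=
  G.IsIndepSet (S : Set V) ∧ S.card = G.indepNum

/-- `corona(G)`: the union of all maximum independent sets. -/
def corona (G : SimpleGraph V) : Set V := {v | ∃ S, IsMaxIndep G S ∧ v ∈ S}

/-- `N(X)`: the set of the vertices adjacent to at least one vertex of `X`. -/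
def nbhd (G : SimpleGraph V) (X : Finset V) : Set V := {w | ∃ x ∈ X, G.Adj x w}

/-- `d_G(X) = |X| - |N(X)|`. -/
noncomputable def dif (G : SimpleGraph V) (X : Finset V) : ℤ := (X.card : ℤ) - ((nbhd G X).ncard : ℤ)

/-- `X` is a critical independent set: an independent set maximizing `d_G`. -/
def IsCritical (G : SimpleGraph V) (X : Finset V) : Prop :=
  G.IsIndepSet (X : Set V) ∧ ∀ Y : Finset V, G.IsIndepSet (Y : Set V) → dif G Y ≤ dif G X

/-- `ker(G)`: the intersection of all critical independent sets. -/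
def ker (G : SimpleGraph V) : Set V := {v | ∀ X, IsCritical G X → v ∈ X}

section

variable [Fintype V] (G : SimpleGraph V)

open Classical in
/-- the neighbourhood as a finite set -/
noncomputable def nb (X : Finset V) : Finset V := univ.filter fun w => ∃ x ∈ X, G.Adj x w

theorem mem_nb {X : Finset V} {w : V} : w ∈ nb G X ↔ ∃ x ∈ X, G.Adj x w := by
  unfold nb
  simp

theorem dif_eq (X : Finset V) : dif G X = (X.card : ℤ) - ((nb G X).card : ℤ) := by
  unfold dif
  have : nbhd G X = ((nb G X : Finset V) : Set V) := by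
    ext w
    rw [mem_coe, mem_nb]
    rfl
  rw [this, Set.ncard_coe_finset]

theorem exists_critical : ∃ I, IsCritical G I := by
  classical
  obtain ⟨I, hI, hmax⟩ := exists_max_image
    (Finset.filter (fun X : Finset V => G.IsIndepSet (X : Set V)) (univ : Finset (Finset V)))
    (fun X => dif G X) ⟨∅, by simp [IsIndepSet]⟩
  rw [mem_filter] at hI
  exact ⟨I, hI.2, fun Y hY => hmax Y (mem_filter.2 ⟨mem_univ _, hY⟩)⟩

variable {G}

/-- a matching of `N(I)` into `I` -/
theorem exists_matching {I : Finset V} (hI : IsCritical G I) :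
    ∃ M : {w // w ∈ nb G I} → V, Function.Injective M ∧ ∀ w, M w ∈ I ∧ G.Adj w.1 (M w) := by
  classical
  have hall : ∀ A : Finset {w // w ∈ nb G I},
      A.card ≤ (A.biUnion fun w => I.filter fun x => G.Adj w.1 x).card := by
    intro A
    set B := A.biUnion fun w => I.filter fun x => G.Adj w.1 x with hB
    have hBI : B ⊆ I := by
      intro x hx
      rw [hB, mem_biUnion] at hx
      obtain ⟨w, -, hx⟩ := hx
      exact (mem_filter.1 hx).1
    have h1 := hI.2 (I \ B) (fun x hx y hy hxy =>
      hI.1 (mem_coe.2 (mem_sdiff.1 (mem_coe.1 hx)).1) (mem_coe.2 (mem_sdiff.1 (mem_coe.1 hy)).1) hxy)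
    rw [dif_eq, dif_eq] at h1
    have h2 : nb G (I \ B) ⊆ nb G I \ A.map (Function.Embedding.subtype _) := by
      intro w hw
      rw [mem_nb] at hw
      obtain ⟨x, hx, hxw⟩ := hw
      rw [mem_sdiff] at hx
      rw [mem_sdiff]
      refine ⟨(mem_nb G).2 ⟨x, hx.1, hxw⟩, fun hA => hx.2 ?_⟩
      rw [mem_map] at hA
      obtain ⟨w', hw', he⟩ := hA
      rw [hB, mem_biUnion]
      refine ⟨w', hw', mem_filter.2 ⟨hx.1, ?_⟩⟩
      have : w'.1 = w := he
      rw [this]
      exact hxw.symm
    have h3 := card_le_card h2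
    have h4 : A.map (Function.Embedding.subtype _) ⊆ nb G I := by
      intro w hw
      rw [mem_map] at hw
      obtain ⟨w', -, he⟩ := hw
      have : w'.1 = w := he
      rw [← this]
      exact w'.2
    rw [card_sdiff_of_subset h4, card_map] at h3
    rw [card_sdiff_of_subset hBI] at h1
    have h5 := card_le_card hBI
    have h6 := card_le_card h4
    rw [card_map] at h6
    omega
  obtain ⟨M, hM, hM2⟩ := (all_card_le_biUnion_card_iff_exists_injective _).1 hall
  exact ⟨M, hM, fun w => mem_filter.1 (hM2 w)⟩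

/-- an independent set has at most `|I|` elements in `I ∪ N(I)` -/
theorem card_inter_le [DecidableEq V] {I : Finset V} (hI : IsCritical G I) {S : Finset V}
    (hS : G.IsIndepSet (S : Set V)) : (S ∩ I).card + (S ∩ nb G I).card ≤ I.card := by
  obtain ⟨M, hM, hM2⟩ := exists_matching hI
  have h1 : (S ∩ nb G I).card ≤ (I \ S).card := by
    rw [← card_attach (s := S ∩ nb G I)]
    refine card_le_card_of_injOn
      (fun w => M ⟨w.1, (mem_inter.1 w.2).2⟩) ?_ ?_
    · intro w _
      have h2 := hM2 ⟨w.1, (mem_inter.1 w.2).2⟩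
      rw [mem_coe, mem_sdiff]
      refine ⟨h2.1, fun h3 => ?_⟩
      exact hS (mem_coe.2 (mem_inter.1 w.2).1) (mem_coe.2 h3) h2.2.ne h2.2
    · intro w _ w' _ he
      have h7 := hM he
      exact Subtype.ext (Subtype.mk.inj h7)
  have h2 : (I \ S).card + (S ∩ I).card = I.card := by
    rw [inter_comm]
    exact card_sdiff_add_card_inter I S
  omega

/-- the part of an independent set outside `I ∪ N(I)` -/
theorem card_out_le [DecidableEq V] {I : Finset V} (hI : IsCritical G I) {S : Finset V}
    (hS : G.IsIndepSet (S : Set V)) (hd : Disjoint S I) (hn : Disjoint S (nb G I)) :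
    S.card + I.card ≤ G.indepNum := by
  rw [← card_union_of_disjoint hd]
  apply IsIndepSet.card_le_indepNum
  intro x hx y hy hxy hadj
  rw [mem_coe, mem_union] at hx hy
  rcases hx with hx | hx <;> rcases hy with hy | hy
  · exact hS (mem_coe.2 hx) (mem_coe.2 hy) hxy hadj
  · exact Finset.disjoint_left.1 hn hx ((mem_nb G).2 ⟨y, hy, hadj.symm⟩)
  · exact Finset.disjoint_left.1 hn hy ((mem_nb G).2 ⟨x, hx, hadj⟩)
  · exact hI.1 (mem_coe.2 hx) (mem_coe.2 hy) hxy hadj

theorem split_card [DecidableEq V] {I : Finset V} (hI : IsCritical G I) (S : Finset V) :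
    S.card = (S ∩ I).card + (S ∩ nb G I).card + (S \ (I ∪ nb G I)).card := by
  have h0 : Disjoint I (nb G I) := by
    rw [Finset.disjoint_left]
    intro x hx hx2
    obtain ⟨y, hy, hadj⟩ := (mem_nb G).1 hx2
    exact hI.1 (mem_coe.2 hy) (mem_coe.2 hx) hadj.ne hadj
  have h1 : (S \ (I ∪ nb G I)).card + (S ∩ (I ∪ nb G I)).card = S.card :=
    card_sdiff_add_card_inter _ _
  have h2 : (S ∩ (I ∪ nb G I)).card = (S ∩ I).card + (S ∩ nb G I).card := by
    rw [inter_union_distrib_left]
    apply card_union_of_disjoint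
    exact (h0.mono inter_subset_right inter_subset_right)
  omega

/-- maximum independent sets meet `I ∪ N(I)` in exactly `|I|` vertices -/
theorem max_eq [DecidableEq V] {I : Finset V} (hI : IsCritical G I) {S : Finset V}
    (hS : IsMaxIndep G S) : (S ∩ I).card + (S ∩ nb G I).card = I.card := by
  have h1 := card_inter_le hI hS.1
  have h2 := card_out_le hI (S := S \ (I ∪ nb G I))
    (fun x hx y hy => hS.1 (mem_coe.2 (mem_sdiff.1 (mem_coe.1 hx)).1)
      (mem_coe.2 (mem_sdiff.1 (mem_coe.1 hy)).1))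
    (Finset.disjoint_left.2 fun x hx hx2 => (mem_sdiff.1 hx).2 (mem_union_left _ hx2))
    (Finset.disjoint_left.2 fun x hx hx2 => (mem_sdiff.1 hx).2 (mem_union_right _ hx2))
  have h3 := split_card hI S
  have h4 := hS.2
  omega

/-- `S ∩ I` is critical for every maximum independent set `S` -/
theorem critical_inter [DecidableEq V] {I : Finset V} (hI : IsCritical G I) {S : Finset V}
    (hS : IsMaxIndep G S) : IsCritical G (S ∩ I) := by
  have hle : dif G I ≤ dif G (S ∩ I) := by
    rw [dif_eq, dif_eq]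
    have h1 := max_eq hI hS
    have h2 : nb G (S ∩ I) ⊆ nb G I \ (S ∩ nb G I) := by
      intro w hw
      obtain ⟨x, hx, hxw⟩ := (mem_nb G).1 hw
      rw [mem_inter] at hx
      rw [mem_sdiff]
      refine ⟨(mem_nb G).2 ⟨x, hx.2, hxw⟩, fun h => ?_⟩
      exact hS.1 (mem_coe.2 hx.1) (mem_coe.2 (mem_inter.1 h).1) hxw.ne hxw
    have h3 := card_le_card h2
    rw [card_sdiff_of_subset inter_subset_right] at h3
    have h4 : (S ∩ nb G I).card ≤ (nb G I).card := card_le_card inter_subset_right
    omega
  refine ⟨fun x hx y hy => hI.1 (mem_coe.2 (mem_inter.1 (mem_coe.1 hx)).2)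
    (mem_coe.2 (mem_inter.1 (mem_coe.1 hy)).2), fun Y hY => (hI.2 Y hY).trans hle⟩

/-- **Main inequality.** -/
theorem main {T : Finset V} (hT : MeetsOddCycles G T) :
    (corona G).ncard + (ker G).ncard ≤ 2 * G.indepNum + T.card := by
  classical
  obtain ⟨I, hI⟩ := exists_critical G
  obtain ⟨M, hM, hM2⟩ := exists_matching hI
  set Co : Finset V := univ.filter fun v => v ∈ corona G with hCo
  set K : Finset V := univ.filter fun v => v ∈ ker G with hK
  have e1 : (corona G).ncard = Co.card := by
    rw [← Set.ncard_coe_finset]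
    congr 1
    ext v
    simp [hCo]
  have e2 : (ker G).ncard = K.card := by
    rw [← Set.ncard_coe_finset]
    congr 1
    ext v
    simp [hK]
  have hKI : K ⊆ I := by
    intro v hv
    exact (mem_filter.1 hv).2 I hI
  have h1 : (Co ∩ nb G I).card ≤ (I \ K).card := by
    rw [← card_attach (s := Co ∩ nb G I)]
    refine card_le_card_of_injOn (fun w => M ⟨w.1, (mem_inter.1 w.2).2⟩) ?_ ?_
    · intro w _
      have h2 := hM2 ⟨w.1, (mem_inter.1 w.2).2⟩
      rw [mem_coe, mem_sdiff]
      refine ⟨h2.1, fun h3 => ?_⟩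
      obtain ⟨S, hS, hwS⟩ := (mem_filter.1 (mem_inter.1 w.2).1).2
      have h4 := (mem_filter.1 h3).2 _ (critical_inter hI hS)
      exact hS.1 (mem_coe.2 hwS) (mem_coe.2 (mem_inter.1 h4).1) h2.2.ne h2.2
    · intro w _ w' _ he
      have h7 := hM he
      exact Subtype.ext (Subtype.mk.inj h7)
  have h2 : (I \ K).card + K.card = I.card := by
    rw [card_sdiff_of_subset hKI]
    have := card_le_card hKI
    omega
  have h3 : (Co ∩ I).card ≤ I.card := card_le_card inter_subset_right
  have h4 := split_card hI Co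
  -- the rest
  set R : Finset V := univ \ (I ∪ nb G I) with hR
  have h5 : (Co \ (I ∪ nb G I)).card ≤ R.card :=
    card_le_card (sdiff_subset_sdiff (subset_univ _) (subset_refl _))
  obtain ⟨S, hSR, hS, hcard⟩ := exists_half (G := G) T (R \ T) hT sdiff_disjoint
  have h6 := card_out_le hI hS
    (Finset.disjoint_left.2 fun x hx hx2 => (mem_sdiff.1 (mem_sdiff.1 (hSR hx)).1).2 (mem_union_left _ hx2))
    (Finset.disjoint_left.2 fun x hx hx2 => (mem_sdiff.1 (mem_sdiff.1 (hSR hx)).1).2 (mem_union_right _ hx2))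
  have h7 : R.card ≤ (R \ T).card + T.card := by
    have := card_sdiff_add_card_inter R T
    have h8 : (R ∩ T).card ≤ T.card := card_le_card inter_subset_right
    omega
  rw [e1, e2]
  omega

/-- The edge sets of the odd cycles of `G`. -/
def oddCycles (G : SimpleGraph V) : Set (Set (Sym2 V)) :=
  {c | ∃ (v : V) (w : G.Walk v v), w.IsCycle ∧ Odd w.length ∧ c = {e | e ∈ w.edges}}

theorem exists_transversal (G : SimpleGraph V) :
    ∃ T : Finset V, MeetsOddCycles G T ∧ T.card ≤ (oddCycles G).ncard := by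
  classical
  have hfin : (oddCycles G).Finite := Set.toFinite _
  have hch : ∀ c : Set (Sym2 V), ∃ v : V ⊕ Unit, c ∈ oddCycles G → ∃ x, v = Sum.inl x ∧
      ∀ (u : V) (w : G.Walk u u), c = {e | e ∈ w.edges} → x ∈ w.support := by
    intro c
    by_cases hc : c ∈ oddCycles G
    · obtain ⟨v, w, hw, -, he⟩ := id hc
      refine ⟨Sum.inl v, fun _ => ⟨v, rfl, ?_⟩⟩
      intro u w' he'
      have h1 : s(v, w.snd) ∈ w.edges := w.mk_start_snd_mem_edges hw.not_nil
      have h2 : s(v, w.snd) ∈ {e | e ∈ w'.edges} := by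
        rw [← he', he]
        exact h1
      exact w'.fst_mem_support_of_mem_edges h2
    · exact ⟨Sum.inr (), fun h => absurd h hc⟩
  choose f hf using hch
  refine ⟨(hfin.toFinset.image f).preimage Sum.inl (Sum.inl_injective.injOn), ?_, ?_⟩
  · intro v w hw ho
    have hc : {e | e ∈ w.edges} ∈ oddCycles G := ⟨v, w, hw, ho, rfl⟩
    obtain ⟨x, hx, hx2⟩ := hf _ hc
    refine ⟨x, ?_, hx2 v w rfl⟩
    rw [mem_preimage, mem_image]
    exact ⟨_, hfin.mem_toFinset.2 hc, hx⟩
  · rw [Set.ncard_eq_toFinset_card _ hfin]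
    refine le_trans ?_ (card_image_le (s := hfin.toFinset) (f := f))
    exact card_le_card_of_injOn Sum.inl (fun x hx => by simpa using hx)
      Sum.inl_injective.injOn

end

end Run7.h773.CK
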