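import Mathlib

/-!
# Odd closed walks contain odd cycles; large independent sets in graphs with few odd cycles

The lemmas `walk_dich`, `exists_oddCycle_aux`, `exists_oddCycle` are helper502's
(`Pool/Agent/Run7/h502/FD/Color.lean`).
-/

set_option autoImplicit false

namespace Run7.h773.CK

open SimpleGraph

variable {V : Type*} {H G : SimpleGraph V}

lemma walk_dich {a b : V} (p : H.Walk a b) :
    (∃ (x : V) (c : H.Walk x x), Odd c.length ∧ c.length ≤ p.length) ∨
      ∃ q : H.Walk a b, q.IsPath ∧ (Even q.length ↔ Even p.length) := by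
  classical
  suffices h : (∃ (x : V) (c : H.Walk x x), Odd c.length ∧ c.length ≤ p.length) ∨
      ∃ q : H.Walk a b, q.IsPath ∧ (Even q.length ↔ Even p.length) ∧ q.length ≤ p.length by
    rcases h with h | ⟨q, h1, h2, -⟩
    · exact Or.inl h
    · exact Or.inr ⟨q, h1, h2⟩
  induction p with
  | nil => exact Or.inr ⟨Walk.nil, by simp, by simp, by simp⟩
  | @cons a c b h p ih =>
    rcases ih with ⟨x, cc, h1, h2⟩ | ⟨q, hq, hpar, hl⟩
    · exact Or.inl ⟨x, cc, h1, by rw [Walk.length_cons]; omega⟩
    · by_cases ha : a ∈ q.support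
      · have e := congrArg Walk.length (q.take_spec ha)
        rw [Walk.length_append] at e
        by_cases hodd : Odd ((Walk.cons h (q.takeUntil a ha)).length)
        · refine Or.inl ⟨a, _, hodd, ?_⟩
          rw [Walk.length_cons, Walk.length_cons]
          omega
        · refine Or.inr ⟨q.dropUntil a ha, hq.dropUntil ha, ?_, ?_⟩
          · rw [Walk.length_cons] at hodd ⊢
            rw [Nat.not_odd_iff_even] at hodd
            rw [Nat.even_add_one] at hodd ⊢
            rw [← hpar, ← e, Nat.even_add]
            tauto
          · rw [Walk.length_cons]; omega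
      · refine Or.inr ⟨Walk.cons h q, ?_, ?_, ?_⟩
        · rw [Walk.cons_isPath_iff]; exact ⟨hq, ha⟩
        · rw [Walk.length_cons, Walk.length_cons, Nat.even_add_one, Nat.even_add_one, hpar]
        · rw [Walk.length_cons, Walk.length_cons]; omega

lemma exists_oddCycle_aux : ∀ (n : ℕ) (u : V) (w : H.Walk u u), w.length = n → Odd n →
    ∃ (v : V) (c : H.Walk v v), c.IsCycle ∧ Odd c.length := by
  intro n
  induction n using Nat.strong_induction_on with
  | _ n ih =>
    intro u w hw hn
    cases w with
    | nil => rw [← hw] at hn; simp at hn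
    | @cons _ v _ h p =>
      rw [Walk.length_cons] at hw
      rcases walk_dich p with ⟨x, c, h1, h2⟩ | ⟨q, hq, hpar⟩
      · exact ih c.length (by omega) x c rfl h1
      · have hpe : Even p.length := by
          rw [← hw, Nat.odd_add_one, Nat.not_odd_iff_even] at hn
          exact hn
        have hqe : Even q.length := hpar.2 hpe
        refine ⟨u, Walk.cons h q, ?_, ?_⟩
        · rw [Walk.cons_isCycle_iff]
          refine ⟨hq, fun he => ?_⟩
          cases q with
          | nil => exact h.ne rfl
          | @cons _ x _ h' r =>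
            rw [Walk.cons_isPath_iff] at hq
            rw [Walk.edges_cons, List.mem_cons] at he
            rcases he with he | he
            · have hx : x = u := by
                rw [Sym2.eq_iff] at he
                rcases he with ⟨e1, e2⟩ | ⟨e1, _⟩
                · exact absurd e1 h.ne
                · exact e1.symm
              subst hx
              have := (Walk.isPath_iff_nil.1 hq.1).eq_nil
              subst this
              rw [Walk.length_cons, Walk.length_nil] at hqe
              exact absurd hqe (by decide)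
            · exact hq.2 (Walk.snd_mem_support_of_mem_edges _ he)
        · rw [Walk.length_cons]; exact hqe.add_one

lemma exists_oddCycle (h : ¬ H.Colorable 2) :
    ∃ (v : V) (c : H.Walk v v), c.IsCycle ∧ Odd c.length := by
  rw [two_colorable_iff_forall_loop_even] at h
  push Not at h
  obtain ⟨u, w, hw⟩ := h
  exact exists_oddCycle_aux w.length u w rfl (by simpa using hw)

/-- `T` meets every odd cycle of `G`. -/
def MeetsOddCycles (G : SimpleGraph V) (T : Finset V) : Prop :=
  ∀ (v : V) (w : G.Walk v v), w.IsCycle → Odd w.length → ∃ t ∈ T, t ∈ w.support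

/-- Every set `R` avoiding `T` contains an independent set with at least half of its elements. -/
theorem exists_half [DecidableEq V] (T R : Finset V) (hT : MeetsOddCycles G T) (hR : Disjoint R T) :
    ∃ S ⊆ R, G.IsIndepSet (S : Set V) ∧ R.card ≤ 2 * S.card := by
  have hcol : (G.induce (R : Set V)).Colorable 2 := by
    by_contra hn
    obtain ⟨v, c, hc, ho⟩ := exists_oddCycle hn
    let e := Embedding.induce (G := G) (R : Set V)
    have h1 : (c.map e.toHom).IsCycle := hc.map e.injective
    obtain ⟨t, ht, hts⟩ := hT _ (c.map e.toHom) h1 (by rw [Walk.length_map]; exact ho)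
    rw [Walk.support_map, List.mem_map] at hts
    obtain ⟨r, -, hr⟩ := hts
    have h2 : t ∈ R := by rw [← hr]; exact r.2
    exact Finset.disjoint_left.1 hR h2 ht
  obtain ⟨C⟩ := hcol
  let A : Fin 2 → Finset V := fun i => R.filter fun v => ∃ h : v ∈ R, C ⟨v, h⟩ = i
  have hind : ∀ i, G.IsIndepSet (A i : Set V) := by
    intro i x hx y hy hxy hadj
    simp only [A, Finset.coe_filter, Set.mem_ofPred_eq] at hx hy
    obtain ⟨-, hx1, hx2⟩ := hx
    obtain ⟨-, hy1, hy2⟩ := hy
    have : (G.induce (R : Set V)).Adj ⟨x, hx1⟩ ⟨y, hy1⟩ := hadj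
    exact C.valid this (by rw [hx2, hy2])
  have hcov : R ⊆ A 0 ∪ A 1 := by
    intro v hv
    rw [Finset.mem_union]
    rcases Fin.exists_fin_two.1 ⟨C ⟨v, hv⟩, rfl⟩ with h | h
    · exact Or.inl (Finset.mem_filter.2 ⟨hv, hv, h.symm ▸ rfl⟩)
    · exact Or.inr (Finset.mem_filter.2 ⟨hv, hv, h.symm ▸ rfl⟩)
  have h3 := (Finset.card_le_card hcov).trans (Finset.card_union_le _ _)
  rcases le_total (A 0).card (A 1).card with h | h
  · exact ⟨A 1, Finset.filter_subset _ _, hind 1, by omega⟩
  · exact ⟨A 0, Finset.filter_subset _ _, hind 0, by omega⟩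

end Run7.h773.CK
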